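import Pool.Agent.H547.CV.Fin
import Pool.Agent.H969.CV322.C

set_option autoImplicit false

/-!
# The two convolution sums `∑ a_k/16^k`, `∑ a_k/(-8)^k` modulo `p^(2r+2)`

Both sums are discrete iterated integrals `∑ P(l) (P(N-l+1) - P(N-l))` of partial sums `P(l)` that have WZ potentials
`Ψ(l,i)`; a discrete Stokes formula over the triangle between the diagonal and the boundary of the lattice square turns them
into sums of products of two kernels, whose terms are divisible by `p^(2r+2)` off a few lines. What remains are sums of the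
numbers `N/j`, `N = p^r`.
-/

open Finset

namespace Pool.Agent.Results.MP_322b37_nt.ConvDiff

/-- `a_k = ∑_{j=0}^k C(2j,j)³ C(2k-2j,k-j)³ (3j+1)(3k-3j+1)` -/
def a (k : ℕ) : ℕ := ∑ j ∈ range (k + 1), (2 * j).choose j ^ 3 * (2 * k - 2 * j).choose (k - j) ^ 3 * (3 * j + 1) * (3 * k - 3 * j + 1)

/-- `S_x(p,r) = ∑_{k=0}^{p^r-1} a_k/x^k` -/
def S (x : ℚ) (p r : ℕ) : ℚ := ∑ k ∈ range (p ^ r), (a k : ℚ) / x ^ k

theorem S_eq (x : ℚ) (p r : ℕ) : S x p r = Pool.Agent.H547.CV.SS x (p ^ r) := by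
  unfold S Pool.Agent.H547.CV.SS a
  refine sum_congr rfl fun k _ => ?_
  congr 1
  push_cast
  refine sum_congr rfl fun j hj => ?_
  have hj' := Nat.lt_succ_iff.1 (mem_range.1 hj)
  unfold Pool.Agent.H547.CV.b3 Nat.centralBinom
  have e1 : 2 * k - 2 * j = 2 * (k - j) := by omega
  have e2 : 3 * k - 3 * j = 3 * (k - j) := by omega
  rw [e1, e2]
  push_cast
  ring

theorem result (p : ℕ) (hp : p.Prime) (h2 : p ≠ 2) (r : ℕ) (hr : 1 ≤ r) :
    (p : ℤ) ^ (2 * r + 2) ∣ (S 16 p r - S (-8) p r).num ∧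
    (p : ℤ) ^ (2 * r + 2) ∣ (S 16 p r - (p : ℚ) ^ (2 * r) / 4 ^ (p ^ r - 1)).num ∧
    (p : ℤ) ^ (2 * r + 2) ∣ (S (-8) p r - (p : ℚ) ^ (2 * r) / 4 ^ (p ^ r - 1)).num := by
  haveI : Fact p.Prime := ⟨hp⟩
  have hC : Pool.Agent.H547.CV.S_C := Pool.Agent.H969.CV322.C
  obtain ⟨h1, h3⟩ := Pool.Agent.H547.CV.fin (p := p)
    (Pool.Agent.H547.CV.D Pool.Agent.H547.CV.hB Pool.Agent.H547.CV.hO Pool.Agent.H547.CV.hW)
    (Pool.Agent.H547.CV.E hC Pool.Agent.H547.CV.hR Pool.Agent.H547.CV.hO Pool.Agent.H547.CV.hW) h2 hr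
  have e : ((p ^ r : ℕ) : ℚ) ^ 2 = (p : ℚ) ^ (2 * r) := by push_cast; rw [← pow_mul, mul_comm]
  rw [e, ← S_eq] at h1 h3
  refine ⟨?_, Pool.Agent.H547.CV.I_num h1, Pool.Agent.H547.CV.I_num h3⟩
  have h5 := h1.sub h3
  exact Pool.Agent.H547.CV.I_num (Pool.Agent.H547.icg h5 (by ring))

end Pool.Agent.Results.MP_322b37_nt.ConvDiff
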